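import Mathlib

namespace Pool.Agent.Results.MP_09543b_pr.Segment

/-- the automaton distributional map `Ψ_{A,χ}` -/
noncomputable def Psi {k : ℕ} (A : (Fin k → ℕ) → Fin k) (χ : ℕ → ℝ) (x : Fin k → ℝ)
    (σ : Fin k) : ℝ :=
  ∑' m, χ m * ∑ n ∈ (Finset.Nat.antidiagonalTuple k m).filter (fun n => A n = σ),
    (m.factorial / ∏ τ, ((n τ).factorial : ℝ)) * ∏ τ, x τ ^ n τ

def A0 (n : Fin 3 → ℕ) : Fin 3 :=
  if n 0 = 1 ∧ n 1 = 0 then 0 else if n 0 = 0 ∧ n 1 = 1 then 1 else 2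

theorem result : ∃ (k : ℕ) (A : (Fin k → ℕ) → Fin k) (χ : ℕ → ℝ), 3 ≤ k ∧ (∀ m, 0 ≤ χ m) ∧
    HasSum χ 1 ∧ (∃ m, 2 ≤ m ∧ 0 < χ m) ∧
    {x ∈ stdSimplex ℝ (Fin k) | ∀ σ, Psi A χ x σ = x σ}.Infinite := by
  refine ⟨3, A0, fun m => if m = 2 then 1 else 0, le_rfl, fun m => by positivity,
    hasSum_ite_eq 2 1, ⟨2, le_rfl, by simp⟩, ?_⟩
  have hI : (Set.Icc (0 : ℝ) (1 / 2)).Infinite := Set.Icc_infinite (by norm_num)
  refine (hI.image (f := fun t => ![t, 1 / 2 - t, 1 / 2]) fun a _ b _ h => by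
    simpa using congrFun h 0).mono ?_
  rintro _ ⟨t, ⟨h0, h1⟩, rfl⟩
  refine ⟨⟨fun i => ?_, ?_⟩, fun σ => ?_⟩
  · fin_cases i <;> simp <;> linarith
  · simp [Fin.sum_univ_succ]; ring
  · rw [Psi, tsum_eq_single 2 (fun m hm => by simp [hm])]
    have e : Finset.Nat.antidiagonalTuple 3 2 =
        {![0, 0, 2], ![0, 1, 1], ![0, 2, 0], ![1, 0, 1], ![1, 1, 0], ![2, 0, 0]} := by decide
    rw [e, Finset.sum_filter]
    repeat rw [Finset.sum_insert (by decide)]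
    rw [Finset.sum_singleton]
    fin_cases σ <;> simp [A0, Fin.prod_univ_succ, Nat.factorial] <;> ring

end Pool.Agent.Results.MP_09543b_pr.Segment
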